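import Pool.Agent.Lib.MP_f80667_ag.Ev.Sta
import Pool.Agent.Lib.MP_f80667_ag.Ve.Sta
import Pool.Agent.Lib.MP_f80667_ag.To.A
import Pool.Agent.Lib.MP_f80667_ag.Ep.N0

/-! The definitions of the statement and the old definitions: equations, forms, reduction. -/

open ZC BE PE CV IntermediateField IsDedekindDomain NumberField

namespace EY

section var

variable {F : Type} [Field F] {N : ℕ} {ι : Type} {f : ι → MvPolynomial (Fin N) F} {d : ℕ}

/-- The Jacobian matrix. -/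
noncomputable def Jm (f : ι → MvPolynomial (Fin N) F) (x : Fin N → F) : Matrix ι (Fin N) F :=
  Matrix.of fun i j => MvPolynomial.eval x (MvPolynomial.pderiv j (f i))

theorem jm_apply (x t : Fin N → F) (i : ι) :
    (Jm f x).mulVec t i = ∑ j, MvPolynomial.eval x (MvPolynomial.pderiv j (f i)) * t j := rfl

theorem tgs_eq (x : Fin N → F) : GX.tgs f x = LinearMap.ker (Jm f x).mulVecLin := by
  ext t
  rw [GX.mem_tgs, LinearMap.mem_ker, Matrix.mulVecLin_apply]
  exact ⟨fun h => funext fun i => h i, fun h i => congrFun h i⟩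

theorem jr_iff {x : Fin N → F} : Jr f d x ↔ Module.finrank F (GX.tgs f x) ≤ d + 1 := by
  rw [tgs_eq]
  have h := LinearMap.finrank_range_add_finrank_ker (Jm f x).mulVecLin
  rw [Module.finrank_fin_fun] at h
  have h' : (Jm f x).rank = Module.finrank F (LinearMap.range (Jm f x).mulVecLin) := rfl
  change N ≤ (Jm f x).rank + (d + 1) ↔ _
  rw [h']
  omega

theorem tv_iff {x t : Fin N → F} : Tv f x t ↔ GX.Tg f x t := Iff.rfl

theorem nsg_of (hf : Nsp f d) : GX.Nsg f d where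
  hom := hf.hom
  prime := hf.prime
  dim := hf.dim
  nsg x hx := jr_iff.1 (hf.nsg x hx)

theorem frm_of {ℓ : (Fin N → F) → (Fin N → F) → F} (h : GX.Frm f ℓ) : Frm f ℓ where
  hom x t c hc ht := h.hom x t c hc (tv_iff.1 ht)
  rad := h.rad
  reg y hy := by
    obtain ⟨Q, B, h1, h2⟩ := h.reg y hy
    exact ⟨Q, B, h1, fun x t ht => h2 x t (tv_iff.1 ht)⟩

end var

section alb

variable {F : Type} [Field F] {N N' k k' : ℕ} {ι ι' : Type} {f : ι → MvPolynomial (Fin N) F}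
  {A : GX.Gv F N' k' ι'} {M : GX.Mf f A k}

theorem gok_of (h : Gok A) : A.Ok where
  hm := h.hm
  o1 := h.o1
  oc := h.oc
  ne := h.ne
  sub := h.sub

theorem alb_of (h : Alb M) : M.Alb (AlgebraicClosure F) := by
  intro ℓ hℓ
  obtain ⟨η, h1, h2⟩ := h ℓ (frm_of hℓ)
  exact ⟨η, h1, fun x t ht => h2 x t (tv_iff.2 ht)⟩

end alb

section val

variable {F : Type} [Field F] {N : ℕ} {ι : Type} {f : ι → MvPolynomial (Fin N) F} {Ω : Type}
  [Field Ω] [Algebra F Ω] {V : ValuationSubring Ω} {d : ℕ}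

theorem cg_mv {a : Ω} {P Q : (GX.Xf f).pt Ω} : Cg V (Mv V a) P Q ↔ GX.Cgr f V a P Q := by
  refine exists_congr fun x => exists_congr fun x' => ?_
  exact ⟨fun ⟨⟨h1, h2⟩, ⟨h3, h4⟩, h5⟩ => ⟨h1, h3, h2, h4, h5⟩,
    fun ⟨h1, h3, h2, h4, h5⟩ => ⟨⟨h1, h2⟩, ⟨h3, h4⟩, h5⟩⟩

theorem cg_mx {P Q : (GX.Xf f).pt Ω} : Cg V (Mx V) P Q ↔ GX.Srd f V P Q := by
  refine exists_congr fun x => exists_congr fun x' => ?_
  exact ⟨fun ⟨⟨h1, h2⟩, ⟨h3, h4⟩, h5⟩ => ⟨h1, h3, h2, h4, h5⟩,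
    fun ⟨h1, h3, h2, h4, h5⟩ => ⟨⟨h1, h2⟩, ⟨h3, h4⟩, h5⟩⟩

open Classical in
theorem zra_iff {a : Ω} {z : (GX.Xf f).pt Ω →₀ ℤ} :
    (∀ Q, ∑ P ∈ z.support.filter fun P => Cg V (Mv V a) P Q, z P = 0) ↔ GX.Zra f V a z :=
  forall_congr' fun _ => by
    rw [Finset.sum_congr (Finset.filter_congr fun _ _ => cg_mv) fun _ _ => rfl]

open Classical in
theorem zrd_iff {z : (GX.Xf f).pt Ω →₀ ℤ} :
    (∀ Q, ∑ P ∈ z.support.filter fun P => Cg V (Mx V) P Q, z P = 0) ↔ GX.Zrd f V z :=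
  forall_congr' fun _ => by
    rw [Finset.sum_congr (Finset.filter_congr fun _ _ => cg_mx) fun _ _ => rfl]

theorem sms_iff {P : (GX.Xf f).pt Ω} : Sms V d P ↔ GX.Sms V f d P :=
  exists_congr fun _ => and_congr Iff.rfl (and_congr Iff.rfl jr_iff)

theorem gng_iff : Gng f V d ↔ GX.Gng V f d :=
  forall_congr' fun _ => imp_congr Iff.rfl
    (exists_congr fun _ => and_congr Iff.rfl (and_congr Iff.rfl jr_iff))

end val

section deg

variable {F : Type} [Field F] {N : ℕ} {ι : Type} {f : ι → MvPolynomial (Fin N) F} {K Ω : Type}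
  [Field K] [CharZero K] [Field Ω] [Algebra K Ω] [Algebra F K] [Algebra F Ω]
  [IsScalarTower F K Ω] [IsAlgClosure K Ω]

/-- A point with at most `D` conjugates is defined over an extension of degree at most `D`. -/
theorem dgb_of {D : ℕ} {P : (GX.Xf f).pt Ω}
    (h : ∃ s : Finset ((GX.Xf f).pt Ω), s.card ≤ D ∧ ∀ γ : Ω ≃ₐ[K] Ω, (GX.Xf f).act γ P ∈ s) :
    GX.Dgb f K D P := by
  classical
  have hcl : IsAlgClosed Ω := IsAlgClosure.isAlgClosed K
  have hal : Algebra.IsAlgebraic K Ω := IsAlgClosure.isAlgebraic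
  have hno : Normal K Ω := IsAlgClosure.normal K Ω
  obtain ⟨s, hs, h⟩ := h
  obtain ⟨Q, rfl⟩ : ∃ Q, P = Quotient.mk (GX.Hp.sd f Ω) Q := ⟨_, (Quotient.out_eq P).symm⟩
  obtain ⟨i₀, hi₀⟩ : ∃ i, Q.x i ≠ 0 := by
    by_contra hc
    push Not at hc
    exact Q.ne (funext hc)
  obtain ⟨y, hy⟩ : ∃ y : Fin N → Ω, y = fun i => Q.x i / Q.x i₀ := ⟨_, rfl⟩
  have hy' : ∀ i, Q.x i = y i * Q.x i₀ := fun i => by
    rw [hy]
    exact (div_mul_cancel₀ _ hi₀).symm
  obtain ⟨L, hL⟩ : ∃ L : IntermediateField K Ω, L = IntermediateField.adjoin K (Set.range y) :=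
    ⟨_, rfl⟩
  have hyL : ∀ i, y i ∈ L := fun i => by
    rw [hL]
    exact subset_adjoin _ _ ⟨i, rfl⟩
  have hfd : FiniteDimensional K L := by
    rw [hL]
    have : Finite (Set.range y) := Set.finite_range _
    exact IntermediateField.finiteDimensional_adjoin fun x _ => Algebra.IsIntegral.isIntegral x
  refine ⟨L, hfd, ?_, fun γ hγ => ?_⟩
  · rw [← AlgHom.card K L Ω]
    have hex : ∀ e : L →ₐ[K] Ω, ∃ γ : Ω ≃ₐ[K] Ω, ∀ a : L, γ (a : Ω) = e a := by
      intro e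
      refine ⟨AlgEquiv.ofBijective (e.liftNormal Ω)
        (Algebra.IsAlgebraic.algHom_bijective _), fun a => ?_⟩
      exact e.liftNormal_commutes Ω a
    choose γ hγ using hex
    refine le_trans ?_ hs
    rw [← Fintype.card_coe s]
    refine Fintype.card_le_of_injective (fun e => (⟨_, h (γ e)⟩ : s)) fun e e' hee => ?_
    have h1 : (GX.Xf f).act (γ e) (Quotient.mk (GX.Hp.sd f Ω) Q) =
        (GX.Xf f).act (γ e') (Quotient.mk (GX.Hp.sd f Ω) Q) := congrArg Subtype.val hee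
    obtain ⟨c, hc, h2⟩ := Quotient.exact h1
    have h3 : ∀ i, γ e' (Q.x i) = c * γ e (Q.x i) := fun i => congrFun h2 i
    have h4 : ∀ i, γ e (y i) = γ e' (y i) := by
      intro i
      have h5 : γ e' (Q.x i₀) ≠ 0 := (map_ne_zero _).2 hi₀
      have h6 : γ e (Q.x i₀) ≠ 0 := (map_ne_zero _).2 hi₀
      have h7 := h3 i
      rw [hy' i, map_mul, map_mul, h3 i₀] at h7
      have h8 : (γ e' (y i) - γ e (y i)) * (c * γ e (Q.x i₀)) = 0 := by linear_combination h7
      exact (sub_eq_zero.1 ((mul_eq_zero.1 h8).resolve_right (mul_ne_zero hc h6))).symm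
    have h9 : ∀ a ∈ L, γ e a = γ e' a := by
      intro a ha
      rw [hL] at ha
      induction ha using IntermediateField.adjoin_induction with
      | mem x hx =>
        obtain ⟨i, rfl⟩ := hx
        exact h4 i
      | algebraMap x => rw [(γ e).commutes, (γ e').commutes]
      | add x y _ _ hx hy => rw [map_add, map_add, hx, hy]
      | inv x _ hx => rw [map_inv₀, map_inv₀, hx]
      | mul x y _ _ hx hy => rw [map_mul, map_mul, hx, hy]
    refine AlgHom.ext fun a => ?_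
    rw [← hγ e a, ← hγ e' a]
    exact h9 a a.2
  · have h0 : γ (Q.x i₀) ≠ 0 := (map_ne_zero _).2 hi₀
    refine Quotient.sound ⟨Q.x i₀ / γ (Q.x i₀), div_ne_zero hi₀ h0, funext fun i => ?_⟩
    change Q.x i = Q.x i₀ / γ (Q.x i₀) * γ (Q.x i)
    have h1 : γ (y i) = y i := (IntermediateField.mem_fixingSubgroup_iff L γ).1 hγ _ (hyL i)
    rw [hy' i, map_mul, h1, div_mul_eq_mul_div, eq_div_iff h0]
    ring

end deg

end EY
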