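import Pool.Agent.Lib.MP_f80667_ag.Ev.Pa
import Pool.Agent.Lib.MP_f80667_ag.Ve.S

/-! The definitions of the statement and the old definitions: the structure of the kernel. -/

open ZC BE PE CV IntermediateField IsDedekindDomain NumberField

namespace EY

section sets

variable {F : Type} [Field F] {W : Vr F} {K : Type} [Field K] [Algebra F K]

/-- Classes and rational equivalence. -/
theorem cl_add {z y e : Zc W K} (h : z.cy - e.cy - y.cy ∈ W.ratEq K (AlgebraicClosure K)) :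
    z.cl = y.cl + e.cl := by
  let y0 : Dz W K := y
  let e0 : Dz W K := e
  have h1 : y.cl + e.cl = BE.Gp.clsH W K (y0 + e0) := (map_add (BE.Gp.clsH W K) y0 e0).symm
  rw [h1]
  refine BE.Gp.cls_eq.2 ?_
  have h2 : z.cy - (y.cy + e.cy) = z.cy - e.cy - y.cy := by abel
  change z.cy - (y.cy + e.cy) ∈ _
  rw [h2]
  exact h

/-- Multiples. -/
theorem exists_mul (m : ℕ) (z : Zc W K) : ∃ y : Zc W K, y.cy = m • z.cy ∧ y.cl = m • z.cl := by
  let z0 : Dz W K := z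
  exact ⟨(m • z0 : Dz W K), rfl, map_nsmul (BE.Gp.clsH W K) m z0⟩

/-- Differences. -/
theorem exists_sub (z w : Zc W K) : ∃ y : Zc W K, y.cy = z.cy - w.cy ∧ y.cl = z.cl - w.cl := by
  let z0 : Dz W K := z
  let w0 : Dz W K := w
  exact ⟨(z0 - w0 : Dz W K), rfl, map_sub (BE.Gp.clsH W K) z0 w0⟩

/-- The class is `0`. -/
theorem cl_zero {z : Zc W K} (h : z.cy ∈ W.ratEq K (AlgebraicClosure K)) : z.cl = 0 := by
  let o : Dz W K := 0
  have h1 : (0 : Gp W K) = BE.Gp.clsH W K o := (map_zero (BE.Gp.clsH W K)).symm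
  rw [h1]
  refine BE.Gp.cls_eq.2 ?_
  change z.cy - 0 ∈ _
  rw [sub_zero]
  exact h

/-- A multiple of the class is `0`. -/
theorem cl_smul_zero {z : Zc W K} {n : ℕ} (h : n • z.cy ∈ W.ratEq K (AlgebraicClosure K)) :
    n • z.cl = 0 := by
  obtain ⟨y, h1, h2⟩ := exists_mul n z
  rw [← h2]
  refine cl_zero ?_
  rw [h1]
  exact h

theorem cl_mul {z y : Zc W K} {m : ℕ}
    (h : z.cy - m • y.cy ∈ W.ratEq K (AlgebraicClosure K)) : z.cl = m • y.cl := by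
  obtain ⟨w, h1, h2⟩ := exists_mul m y
  rw [← h2]
  refine BE.Gp.cls_eq.2 ?_
  change z.cy - w.cy ∈ _
  rw [h1]
  exact h

theorem fa_of {X Y E : Set (Zc W K)} (s : Finset (W.pt (AlgebraicClosure K) →₀ ℤ))
    (h : ∀ e ∈ s, ∃ e' ∈ E, e'.cy = e)
    (h' : ∀ z ∈ X, ∃ e ∈ s, ∃ y ∈ Y, z.cy - e - y.cy ∈ W.ratEq K (AlgebraicClosure K)) :
    Fa X Y E := by
  refine ⟨{e' | e' ∈ E ∧ e'.cy ∈ s}, fun e he => he.1, ?_, fun z hz => ?_⟩
  · refine (Set.Finite.preimage (f := Zc.cy) ?_ s.finite_toSet).subset fun e he => he.2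
    exact fun a _ b _ hab => Subtype.ext hab
  · obtain ⟨e, he, y, hy, hr⟩ := h' z hz
    obtain ⟨e', he', rfl⟩ := h e he
    exact ⟨y, hy, e', ⟨he', he⟩, cl_add hr⟩

end sets

section sum

variable {F : Type} [Field F] {N N' k k' : ℕ} {ι ι' : Type} {f : ι → MvPolynomial (Fin N) F}
  {A : GX.Gv F N' k' ι'} {M : GX.Mf f A k} {K : Type} [Field K] [Algebra F K]

theorem sm_eq (z : Zc (GX.Xf f) K) : Sm M z = M.S (AlgebraicClosure K) z.cy := by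
  let _ : AddCommGroup ((GX.Xf A.a).pt (AlgebraicClosure K)) := A.G.grp _
  have h1 : M.S (AlgebraicClosure K) z.cy = z.cy.sum fun P m => m • M.φ _ P := by
    change Finsupp.liftAddHom (fun x => (zmultiplesHom ((GX.Xf A.a).pt (AlgebraicClosure K))) x)
      (Finsupp.mapDomain (M.φ _) z.cy) = _
    rw [Finsupp.liftAddHom_apply, Finsupp.sum_mapDomain_index]
    · rfl
    · intro b
      exact map_zero _
    · intro b m m'
      exact map_add _ m m'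
  exact h1.symm

theorem tz_iff {z : Zc (GX.Xf f) K} :
    z ∈ Tz M K ↔ M.S (AlgebraicClosure K) z.cy = (A.G.grp (AlgebraicClosure K)).zero := by
  change Sm M z = _ ↔ _
  rw [sm_eq]

theorem tz_sub {z w y : Zc (GX.Xf f) K} (hz : z ∈ Tz M K) (hw : w ∈ Tz M K)
    (h : y.cy = z.cy - w.cy) : y ∈ Tz M K := by
  let _ : AddCommGroup ((GX.Xf A.a).pt (AlgebraicClosure K)) := A.G.grp _
  have h1 : M.S (AlgebraicClosure K) z.cy = 0 := tz_iff.1 hz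
  have h2 : M.S (AlgebraicClosure K) w.cy = 0 := tz_iff.1 hw
  refine tz_iff.2 ?_
  have h3 : M.S (AlgebraicClosure K) y.cy = 0 := by
    rw [h, map_sub, h1, h2, sub_zero]
  exact h3

end sum

section loc

variable {F : Type} [Field F] [NumberField F] {N N' k k' d : ℕ} {ι ι' : Type}
  {f : ι → MvPolynomial (Fin N) F} {A : GX.Gv F N' k' ι'} {M : GX.Mf f A k}

/-- **The structure of the kernel.** -/
theorem str_glob (hf : Nsp f d) (hA : Gok A) (hM : M.Ok) (hb : Alb M)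
    (v : HeightOneSpectrum (𝓞 F)) (V : ValuationSubring (AlgebraicClosure (FK F v)))
    (hV : Va V) : Str M V d := by
  have hc : CharZero (FK F v) := charZero_of_injective_algebraMap (algebraMap F (FK F v)).injective
  have hG := nsg_of hf
  obtain ⟨a₁, h1, h⟩ := GX.stz_glob hG hf.irr (gok_of hA) hM (alb_of hb) v V hV
  obtain ⟨L, hL⟩ := exists_ldI v
  have hVL : V.comap (algebraMap (FK F v) _) = Ok L := by
    have hV' : V.comap (algebraMap (FK F v) _) = CV.Iv v := hV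
    rw [hV']
    exact SetLike.ext fun x => (hL x).symm
  obtain rfl := GM.v_uniq L V hVL
  obtain ⟨q, hq0, hq1⟩ : ∃ q : AlgebraicClosure (FK F v), q ≠ 0 ∧ L.nm q < 1 := by
    refine ⟨(L.p : AlgebraicClosure (FK F v)), fun h => ?_, L.lt⟩
    have h3 := L.p_pos
    rw [h, L.zero] at h3
    exact lt_irrefl _ h3
  have hqV : q ∈ L.V := L.mem_V.2 hq1.le
  obtain ⟨a₀, h0, ha0, c₀, hc₀, hac⟩ : ∃ a₀ : AlgebraicClosure (FK F v), a₀ ≠ 0 ∧
      L.nm a₀ < 1 ∧ ∃ c ∈ L.V, a₀ = a₁ * c := by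
    rcases L.V.mem_or_inv_mem a₁ with h2 | h2
    · refine ⟨a₁ * q, mul_ne_zero h1 hq0, ?_, q, hqV, rfl⟩
      rw [L.mul]
      calc L.nm a₁ * L.nm q ≤ 1 * L.nm q :=
            mul_le_mul_of_nonneg_right (L.mem_V.1 h2) (L.nonneg _)
        _ < 1 := by rw [one_mul]; exact hq1
    · exact ⟨q, hq0, hq1, a₁⁻¹ * q, mul_mem h2 hqV, (mul_inv_cancel_left₀ h1 q).symm⟩
  have hlt : ∀ a ∈ Mv L.V a₀, L.nm a < 1 := by
    rintro _ ⟨c, hc', rfl⟩
    rw [L.mul]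
    calc L.nm a₀ * L.nm c ≤ L.nm a₀ * 1 :=
          mul_le_mul_of_nonneg_left (L.mem_V.1 hc') (L.nonneg _)
      _ < 1 := by rw [mul_one]; exact ha0
  have hdeg : ∀ a ∈ Mv L.V a₀, a ≠ 0 → ∀ z, GX.Zra f L.V a z →
      (GX.Xf f).deg (AlgebraicClosure (FK F v)) z = 0 := fun a ha hne z hz =>
    GX.zrt_deg hG.hom (L.nonneg a) (hlt a ha) ((GX.zra_iff hne).1 hz)
  have hw : ∀ a ∈ Mv L.V a₀, a ≠ 0 → ∀ z ∈ GX.Wzc L.V M (FK F v) a,
      ∃ y ∈ Tz M (FK F v) ∩ Uz L.V (Mv L.V a), y.cy = z := by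
    intro a ha hne z hz
    refine ⟨⟨z, hz.1, hdeg a ha hne z hz.2.1⟩, ⟨tz_iff.2 hz.2.2, ?_⟩, rfl⟩
    exact zra_iff.2 hz.2.1
  have hw' : ∀ (a : AlgebraicClosure (FK F v)) (z : Zc (GX.Xf f) (FK F v)),
      z ∈ Tz M (FK F v) ∩ Uz L.V (Mv L.V a) → z.cy ∈ GX.Wzc L.V M (FK F v) a :=
    fun a z hz => ⟨z.2.1, zra_iff.1 hz.2, tz_iff.1 hz.1⟩
  have ht : ∀ z ∈ GX.Tzc M (FK F v) (AlgebraicClosure (FK F v)),
      ∃ y ∈ Tz M (FK F v), y.cy = z := fun z hz =>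
    ⟨⟨z, hz.1, hz.2.1⟩, tz_iff.2 hz.2.2, rfl⟩
  have ht' : ∀ z ∈ Tz M (FK F v), z.cy ∈ GX.Tzc M (FK F v) (AlgebraicClosure (FK F v)) :=
    fun z hz => ⟨z.2.1, z.2.2, tz_iff.1 hz⟩
  refine ⟨a₀, h0, fun a ha hne => ?_⟩
  have hm : ∃ c ∈ L.V, a = a₁ * c := by
    obtain ⟨c, hc', rfl⟩ := ha
    exact ⟨c₀ * c, mul_mem hc₀ hc', by rw [hac, mul_assoc]⟩
  obtain ⟨g1, g2, g3, g4, g5⟩ := h a hne hm
  refine ⟨fun b hb hbn m hm z hz => ?_, fun z hz => ?_, fun D => ?_, fun hG p hp hpV => ?_⟩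
  · obtain ⟨c, hc', hbc⟩ := hb
    obtain ⟨z', k1, k2⟩ := g2 b hbn ⟨c, hc', hbc⟩ m hm z.cy (hw' a z hz)
    have hb0 : b ∈ Mv L.V a₀ := by
      obtain ⟨c', hc'', rfl⟩ := ha
      exact ⟨c' * c, mul_mem hc'' hc', by rw [hbc, mul_assoc]⟩
    obtain ⟨y, k3, rfl⟩ := hw b hb0 hbn z' k1
    exact ⟨y, k3, cl_mul k2⟩
  · obtain ⟨u, k1, n, k2, k3⟩ := g3 z.cy (ht' z hz)
    obtain ⟨y, k4, rfl⟩ := hw a ha hne u k1
    obtain ⟨e, k5, k6⟩ := exists_sub z y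
    refine ⟨y, k4, e, ⟨tz_sub hz k4.1 k5, n, k2, cl_smul_zero ?_⟩, ?_⟩
    · rw [k5]
      exact k3
    · rw [k6, add_sub_cancel]
  · obtain ⟨E, hE, hE'⟩ := g4 D
    refine fa_of E (fun e he => ?_) fun z hz => ?_
    · obtain ⟨k1, n, k2, k3⟩ := hE e he
      obtain ⟨y, k4, rfl⟩ := ht e k1
      exact ⟨y, ⟨k4, n, k2, cl_smul_zero k3⟩, rfl⟩
    · obtain ⟨e, he, u, k1, k2⟩ := hE' z.cy (ht' z hz.1) fun P hP => dgb_of (hz.2 P hP)
      obtain ⟨y, k4, rfl⟩ := hw a ha hne u k1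
      exact ⟨e, he, y, k4, k2⟩
  · obtain ⟨E, hE, hE'⟩ := (g5 (gng_iff.1 hG)).1 p hp hpV
    refine fa_of E (fun e he => ?_) fun z hz => ?_
    · obtain ⟨k1, k2, n, k3⟩ := hE e he
      obtain ⟨y, k4, rfl⟩ := ht e k1
      exact ⟨y, ⟨⟨k4, zrd_iff.2 k2⟩, n, cl_smul_zero k3⟩, rfl⟩
    · obtain ⟨e, he, u, k1, k2⟩ := hE' z.cy (ht' z hz.1.1)
        (fun P hP => sms_iff.1 (hz.2 P hP)) (zrd_iff.1 hz.1.2)
      obtain ⟨y, k4, rfl⟩ := hw a ha hne u k1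
      exact ⟨e, he, y, k4, k2⟩

end loc

end EY
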