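import Pool.Agent.Lib.MP_f80667_ag.Ev.Pb
import Pool.Agent.Lib.MP_f80667_ag.Pe.GlN
import Pool.Agent.Lib.MP_f80667_ag.Be.HatA

/-! The adelic kernel and the image of `Δ`. -/

open ZC BE PE CV IntermediateField IsDedekindDomain NumberField

namespace EY

section sets

variable {F : Type} [Field F] {W : Vr F} {K : Type} [Field K] [Algebra F K]

theorem exists_zero : ∃ o : Zc W K, o.cy = 0 ∧ o.cl = 0 :=
  ⟨(0 : Dz W K), rfl, map_zero (BE.Gp.clsH W K)⟩

theorem exists_add (z w : Zc W K) : ∃ y : Zc W K, y.cy = z.cy + w.cy ∧ y.cl = z.cl + w.cl := by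
  let z0 : Dz W K := z
  let w0 : Dz W K := w
  exact ⟨(z0 + w0 : Dz W K), rfl, map_add (BE.Gp.clsH W K) z0 w0⟩

theorem mu_mul {l m : ℕ} {X : Set (Zc W K)} (h : X ⊆ Mu l X) (h' : X ⊆ Mu m X) :
    X ⊆ Mu (l * m) X := by
  intro z hz
  obtain ⟨y, hy, hr⟩ := h hz
  obtain ⟨x, hx, hr'⟩ := h' hy
  exact ⟨x, hx, by rw [hr, hr', mul_smul]⟩

theorem mu_of {Λ : Set ℕ} {X : Set (Zc W K)} (h : ∀ l ∈ Λ, X ⊆ Mu l X) (n : ℕ) (hn : n ≠ 0)
    (hS : Sf Λ n) : X ⊆ Mu n X := by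
  induction n using induction_on_primes with
  | zero => exact absurd rfl hn
  | one => exact fun z hz => ⟨z, hz, (one_smul _ _).symm⟩
  | prime_mul p m hp ih =>
    exact mu_mul (h p (hS p hp (dvd_mul_right p m)))
      (ih (right_ne_zero_of_mul hn) fun l hl hd => hS l hl (hd.mul_left p))

end sets

section nf

variable {F : Type} [Field F] [NumberField F] {N N' k k' d : ℕ} {ι ι' : Type}
  {f : ι → MvPolynomial (Fin N) F} {A : GX.Gv F N' k' ι'} {M : GX.Mf f A k}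

theorem odd_of {m : ℕ} (h : Sf (Lp M) m) : Odd m := by
  rw [← Nat.not_even_iff_odd, even_iff_two_dvd]
  exact fun h' => (h 2 Nat.prime_two h').2.1 rfl

theorem lp_of {m : ℕ} (hm : m ≠ 0) (h : Sf (Lp M) m) (v : HeightOneSpectrum (𝓞 F)) :
    Tz M (FK F v) ⊆ Mu m (Tz M (FK F v)) :=
  mu_of (fun _ hl => hl.2.2 v) m hm h

/-- The adelic kernel is divisible. -/
theorem fam_dv (m : ℕ) (hm : m ≠ 0) (h : Sf (Lp M) m) (c : Fam (GX.Xf f)) (hc : Alx M c) :
    ∃ c' : Fam (GX.Xf f), Alx M c' ∧ c.cl = m • c'.cl := by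
  choose g hg hg' using fun v => lp_of hm h v (hc.1 v)
  refine ⟨(g, c.i), ⟨hg, hc.2⟩, Prod.ext (funext hg') (funext fun v => ?_)⟩
  change (c.i v).clN = m • (c.i v).clN
  obtain ⟨k, rfl⟩ := odd_of h
  rw [add_smul, one_smul, mul_smul, smul_comm, clN_two, smul_zero, zero_add]

/-- Cycles with the same sum modulo `m` times sums have the same class modulo `m`. -/
theorem cl_smx {v : HeightOneSpectrum (𝓞 F)} {m : ℕ}
    (h : Tz M (FK F v) ⊆ Mu m (Tz M (FK F v))) (z w u : Zc (GX.Xf f) (FK F v))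
    (hz : letI := A.G.grp (AlgebraicClosure (FK F v)); Sm M z = Sm M w + m • Sm M u) :
    ∃ t : BE.Gp (GX.Xf f) (FK F v), z.cl = w.cl + m • t := by
  obtain ⟨y, h1, h2⟩ := exists_mul m u
  obtain ⟨x, h3, h4⟩ := exists_sub z w
  obtain ⟨s, h5, h6⟩ := exists_sub x y
  have hs : s ∈ Tz M (FK F v) := by
    let _ : AddCommGroup ((GX.Xf A.a).pt (AlgebraicClosure (FK F v))) := A.G.grp _
    refine tz_iff.2 ?_
    have h7 : M.S (AlgebraicClosure (FK F v)) z.cy = M.S (AlgebraicClosure (FK F v)) w.cy +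
        m • M.S (AlgebraicClosure (FK F v)) u.cy := by
      have h8 : Sm M z = Sm M w + m • Sm M u := hz
      rw [sm_eq, sm_eq, sm_eq] at h8
      exact h8
    have h8 : M.S (AlgebraicClosure (FK F v)) s.cy = 0 := by
      rw [h5, h3, h1, map_sub, map_sub, map_nsmul, h7]
      abel
    exact h8
  obtain ⟨t, -, h7⟩ := h hs
  refine ⟨u.cl + t.cl, ?_⟩
  rw [smul_add, ← h7, h6, h4, h2]
  abel

/-- The image of `Δ`. -/
theorem im_smx (z : LHat (FA (GX.Xf f))) : ImDeS (Lp M) z ↔ Smx M (Lp M) z := by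
  constructor
  · rintro ⟨x, hx⟩
    refine ⟨x, fun m hm => ?_⟩
    obtain ⟨c, c', h1, h3, h4⟩ := hx m hm
    refine ⟨c, c', c', h1, h3, h4, fun v => ?_⟩
    obtain ⟨o, ho, -⟩ := exists_zero (W := GX.Xf f) (K := FK F v)
    refine ⟨o, ?_⟩
    let _ : AddCommGroup ((GX.Xf A.a).pt (AlgebraicClosure (FK F v))) := A.G.grp _
    have h5 : Sm M o = 0 := by
      rw [sm_eq, ho]
      exact map_zero (M.S (AlgebraicClosure (FK F v)))
    have h6 : Sm M (c'.f v) = Sm M (c'.f v) + (m : ℕ) • Sm M o := by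
      rw [h5, smul_zero, add_zero]
    exact h6
  · rintro ⟨x, hx⟩
    refine ⟨x, fun m hm => ?_⟩
    obtain ⟨c, c', d, h1, h3, h4, h5⟩ := hx m hm
    refine ⟨c, c', h1, h3, ?_⟩
    choose u hu using h5
    choose g hg using fun v => cl_smx (lp_of m.ne_zero hm v) (c'.f v) (d.f v) (u v) (hu v)
    have h7 : ∃ t : FA (GX.Xf f), c'.cl = d.cl + (m : ℕ) • t := by
      refine ⟨(g, fun v => (c'.i v).clN - (d.i v).clN), Prod.ext (funext hg)
        (funext fun v => ?_)⟩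
      change (c'.i v).clN = (d.i v).clN + (m : ℕ) • ((c'.i v).clN - (d.i v).clN)
      obtain ⟨k, hk⟩ := odd_of hm
      rw [hk, add_smul, one_smul, mul_smul, smul_sub, smul_sub, smul_comm 2 k, smul_comm 2 k,
        clN_two, clN_two, smul_zero, sub_self, zero_add, add_sub_cancel]
    obtain ⟨t, ht⟩ := h7
    rw [ht]
    exact rep_add h4 t

/-- Almost all places: the cycles with sum `0` and zero reduction are divisible. -/
theorem dv_fin [Finite ι] (hf : Nsp f d) (hA : Gok A) (hM : M.Ok) (hb : Alb M) :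
    {v : HeightOneSpectrum (𝓞 F) | ¬ ∀ V : ValuationSubring (AlgebraicClosure (FK F v)), Va V →
      ∀ m : ℕ, m ≠ 0 → Tz M (FK F v) ∩ Uz V (Mx V) ⊆ Mu m (Tz M (FK F v) ∩ Uz V (Mx V))}.Finite := by
  refine (GX.fin_alb (nsg_of hf) (gok_of hA) hM (alb_of hb)).subset fun v hv h => hv ?_
  intro V hV m hm z hz
  have hc : CharZero (FK F v) := charZero_of_injective_algebraMap (algebraMap F (FK F v)).injective
  obtain ⟨z', h1, h2, h3, h4⟩ := h V hV m hm z.cy z.2.1 (zrd_iff.1 hz.2) (tz_iff.1 hz.1)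
  have hd : (GX.Xf f).deg (AlgebraicClosure (FK F v)) z' = 0 := by
    obtain ⟨L, hL⟩ := exists_ldI v
    have hVL : V.comap (algebraMap (FK F v) _) = Ok L := by
      have hV' : V.comap (algebraMap (FK F v) _) = CV.Iv v := hV
      rw [hV']
      exact SetLike.ext fun x => (hL x).symm
    obtain rfl := GM.v_uniq L V hVL
    exact GX.zrd_deg hf.hom h2
  obtain ⟨w, hw⟩ : ∃ w : Zc (GX.Xf f) (FK F v), w.cy = z' := ⟨⟨z', h1, hd⟩, rfl⟩
  subst hw
  exact ⟨w, ⟨tz_iff.2 h3, zrd_iff.2 h2⟩, cl_mul h4⟩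

/-- **The theorem.** -/
theorem main [Finite ι] (hf : Nsp f d) (hA : Gok A) (hM : M.Ok) (hb : Alb M) :
    (∀ (v : HeightOneSpectrum (𝓞 F)) (V : ValuationSubring (AlgebraicClosure (FK F v))),
      Va V → Str M V d) ∧
    {v : HeightOneSpectrum (𝓞 F) | ¬ ∀ V : ValuationSubring (AlgebraicClosure (FK F v)), Va V →
      ∀ n : ℕ, n ≠ 0 →
        Tz M (FK F v) ∩ Uz V (Mx V) ⊆ Mu n (Tz M (FK F v) ∩ Uz V (Mx V))}.Finite ∧
    (∀ n : ℕ, n ≠ 0 → Sf (Lp M) n → ∀ c : Fam (GX.Xf f), Alx M c →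
      ∃ c' : Fam (GX.Xf f), Alx M c' ∧ c.cl = n • c'.cl) ∧
    ∀ z : LHat (FA (GX.Xf f)), ImDeS (Lp M) z ↔ Smx M (Lp M) z :=
  ⟨fun v V hV => str_glob hf hA hM hb v V hV, dv_fin hf hA hM hb,
    fun m hm h c hc => fam_dv m hm h c hc, im_smx⟩

end nf

end EY
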