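import Pool.Agent.Lib.MP_f80667_ag.Sb.A
import Pool.Agent.Lib.MP_f80667_ag.Pe.StE

/-!
The Albanese kernel of every nonsingular projective variety at every finite place, and its consequences for the adelic group: the
definitions for the statement.

* `Zo f x`, `Jr f d x`: zeros, the rank of the Jacobian matrix. `Fb f E`: the polynomials over `E`. `Nsp f d`: `f = 0` is a
  nonsingular projective variety of dimension `d`. `Tv f x t`: tangent vectors. `Frm f ℓ`: global `1`-forms.
* `Gok A`: the properties of a group variety. `Alb M`: the global `1`-forms are pullbacks of invariant forms.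
* `Pc V P x`: primitive coordinates. `Cg V I P P'`: the points are congruent modulo `I`. `Mv V a`: the multiples of `a`. `Mx V`: the
  maximal ideal.
* `Ov`, `rs`, `Cl`, `sp`: the closure over the integers and its special fibre. `Gng f V d`: it is generically reduced. `Sms V d P`: the
  reduction of `P` is smooth.
* `Sm M z`: the sum of `φ (z)`. The sets of cycles `Tz M K` (sum `0`), `Uz V I` (zero modulo `I`), `Mu m X` (`m` times `X`), `Tr`, `Tp p`
  (torsion), `Dg D` (supported on points with at most `D` conjugates), `Sr V d` (supported on points with smooth reduction).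
* `Ad X Y E`: `X` is in `Y + E`. `Fa X Y E`: in `Y + E'` for a finite subset `E'` of `E`. `Str M V d`: the structure of the kernel.
* `Lp M`: the odd prime numbers `l` with `l`-divisible kernels. `Alx M c`, `Smx M P z`: the adelic kernel, the sums of `z`.
-/

open ZC BE PE IsDedekindDomain NumberField

namespace EY

section var

variable {F : Type} [Field F] {N : ℕ} {ι : Type}

/-- `x ≠ 0` is a common zero of the `f_i`. -/
def Zo (f : ι → MvPolynomial (Fin N) F) (x : Fin N → F) : Prop :=
  x ≠ 0 ∧ ∀ i, MvPolynomial.eval x (f i) = 0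

/-- The rank of the Jacobian matrix of the `f_i` at `x` is at least `N - d - 1`. -/
def Jr (f : ι → MvPolynomial (Fin N) F) (d : ℕ) (x : Fin N → F) : Prop :=
  N ≤ (Matrix.of fun i j => MvPolynomial.eval x (MvPolynomial.pderiv j (f i))).rank + (d + 1)

/-- The polynomials `f_i` over the field `E`. -/
noncomputable def Fb (f : ι → MvPolynomial (Fin N) F) (E : Type) [Field E] [Algebra F E] :
    ι → MvPolynomial (Fin N) E := fun i => MvPolynomial.map (algebraMap F E) (f i)

/-- `f = 0` is a nonsingular geometrically irreducible projective variety of dimension `d`: the `f_i` are homogeneous and generate a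
prime ideal, which has a prime radical over the algebraic closure, the transcendence degree of the homogeneous coordinate ring is `d + 1`,
and at all points over the algebraic closure the rank of the Jacobian matrix is at least `N - d - 1`. -/
structure Nsp (f : ι → MvPolynomial (Fin N) F) (d : ℕ) : Prop where
  hom : ∀ i, ∃ e, (f i).IsHomogeneous e
  prime : (Ideal.span (Set.range f)).IsPrime
  irr : (Ideal.span (Set.range (Fb f (AlgebraicClosure F)))).radical.IsPrime
  dim : Algebra.trdeg F (MvPolynomial (Fin N) F ⧸ Ideal.span (Set.range f)) = (d + 1 : ℕ)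
  nsg : ∀ x, Zo (Fb f (AlgebraicClosure F)) x → Jr (Fb f (AlgebraicClosure F)) d x

/-- `t` is a tangent vector at the point `x` (of the cone). -/
def Tv (f : ι → MvPolynomial (Fin N) F) (x t : Fin N → F) : Prop :=
  Zo f x ∧ ∀ i, ∑ j, MvPolynomial.eval x (MvPolynomial.pderiv j (f i)) * t j = 0

/-- `ℓ` is a global `1`-form: homogeneous, `0` on the radial vectors, and locally a quotient of a polynomial which is linear in the
tangent vector by a polynomial. -/
structure Frm (f : ι → MvPolynomial (Fin N) F) (ℓ : (Fin N → F) → (Fin N → F) → F) : Prop where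
  hom : ∀ x t (c : F), c ≠ 0 → Tv f x t → ℓ (c • x) (c • t) = ℓ x t
  rad : ∀ x (c : F), Zo f x → ℓ x (c • x) = 0
  reg : ∀ y, Zo f y → ∃ (Q : MvPolynomial (Fin N) F) (B : Fin N → MvPolynomial (Fin N) F),
    MvPolynomial.eval y Q ≠ 0 ∧ ∀ x t, Tv f x t → MvPolynomial.eval x Q ≠ 0 →
      MvPolynomial.eval x Q * ℓ x t = ∑ j, MvPolynomial.eval x (B j) * t j

end var

section alb

variable {F : Type} [Field F] {N N' k k' : ℕ} {ι ι' : Type} {f : ι → MvPolynomial (Fin N) F}
  {A : GX.Gv F N' k' ι'}

/-- The vectors `m i` compute the differences of points. -/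
structure Gok (A : GX.Gv F N' k' ι') : Prop where
  hm : ∀ i, ∃ e, (A.a i).IsHomogeneous e
  o1 : A.o A.j₀ = 1
  oc : GX.Co (A.G.grp F).zero A.o
  ne : ∀ (E : Type) [Field E] [Algebra F E] (P Q : (GX.Xf A.a).pt E) (x x' : Fin N' → E),
    GX.Co P x → GX.Co Q x' → ∃ i, A.mv i x x' ≠ 0
  sub : ∀ (E : Type) [Field E] [Algebra F E] (P Q R : (GX.Xf A.a).pt E) (x x' : Fin N' → E)
    (i : Fin k'), GX.Co P x → GX.Co Q x' → (A.G.grp E).add R Q = P → A.mv i x x' ≠ 0 →
      GX.Co R (A.mv i x x')

/-- Every global `1`-form over the algebraic closure `E` of `F` is the pullback of an invariant form. -/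
def Alb (M : GX.Mf f A k) : Prop :=
  ∀ ℓ, Frm (Fb f (AlgebraicClosure F)) ℓ →
    ∃ η : Fin N' → AlgebraicClosure F, ∑ j, η j * algebraMap F (AlgebraicClosure F) (A.o j) = 0 ∧
      ∀ x t, Tv (Fb f (AlgebraicClosure F)) x t →
        ∀ (i : Fin k) (i' : Fin k'), M.pv i x ≠ 0 →
          A.mv i' (M.pv i x) (M.pv i x) A.j₀ * ℓ x t =
            ∑ j, η j * A.dm i' (M.pv i x) (M.dv i x t) j

end alb

section val

variable {F : Type} [Field F] {N : ℕ} {ι : Type} {f : ι → MvPolynomial (Fin N) F} {Ω : Type}
  [Field Ω] [Algebra F Ω] (V : ValuationSubring Ω)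

/-- `x` are primitive coordinates of the point `P`: they are in `V`, one of them is a unit. -/
def Pc (P : (GX.Xf f).pt Ω) (x : Fin N → Ω) : Prop :=
  GX.Co P x ∧ (∀ i, x i ∈ V) ∧ ∃ i, x i ∉ V.nonunits

/-- The points have primitive coordinates with differences in `I`. -/
def Cg (I : Set Ω) (P P' : (GX.Xf f).pt Ω) : Prop :=
  ∃ x x' : Fin N → Ω, Pc V P x ∧ Pc V P' x' ∧ ∀ i, x i - x' i ∈ I

/-- The multiples of `a`. -/
def Mv (a : Ω) : Set Ω := {x | ∃ c ∈ V, x = a * c}

/-- The maximal ideal. -/
def Mx : Set Ω := {x | x ∈ V.nonunits}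

/-- The valuation ring of `F` under `V`. -/
def Ov (F : Type) [Field F] [Algebra F Ω] : ValuationSubring F := V.comap (algebraMap F Ω)

/-- The residues of the elements of the valuation ring of `F`. -/
noncomputable def rs (F : Type) [Field F] [Algebra F Ω] :
    Ov V F →+* IsLocalRing.ResidueField V :=
  (IsLocalRing.residue V).comp
    (((algebraMap F Ω).comp (Ov V F).subtype).codRestrict V fun x => x.2)

variable (f)

/-- The equations of the closure of the variety `f = 0` over the valuation ring of `F`: the homogeneous polynomials with coefficients in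
the valuation ring which are in the ideal of the `f_i`. -/
def Cl : Type :=
  {g : MvPolynomial (Fin N) (Ov V F) // (∃ m, g.IsHomogeneous m) ∧
    MvPolynomial.map (Ov V F).subtype g ∈ Ideal.span (Set.range f)}

/-- The equations of the special fibre of the closure. -/
noncomputable def sp : Cl f V → MvPolynomial (Fin N) (IsLocalRing.ResidueField V) :=
  fun g => MvPolynomial.map (rs V F) g.1

/-- The special fibre of the closure is generically reduced: every component (a minimal prime ideal `P`) contains a point at which the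
rank of the Jacobian matrix is at least `N - d - 1`. -/
def Gng (d : ℕ) : Prop :=
  ∀ P ∈ (Ideal.span (Set.range (sp f V))).minimalPrimes,
    ∃ x, Zo (sp f V) x ∧ (∀ g ∈ P, MvPolynomial.eval x g = 0) ∧ Jr (sp f V) d x

variable {f}

/-- The reduction of the point `P` is a smooth point of the special fibre of the closure. -/
def Sms (d : ℕ) (P : (GX.Xf f).pt Ω) : Prop :=
  ∃ x : Fin N → V, GX.Co P (fun j => (x j : Ω)) ∧ (∃ j, IsUnit (x j)) ∧
    Jr (sp f V) d fun j => IsLocalRing.residue V (x j)

end val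

section sets

variable {F : Type} [Field F] {W : Vr F} {K : Type} [Field K] [Algebra F K]

/-- The cycles which are `m` times a cycle in `X`. -/
def Mu (m : ℕ) (X : Set (Zc W K)) : Set (Zc W K) := {z | ∃ y ∈ X, z.cl = m • y.cl}

/-- The torsion. -/
def Tr : Set (Zc W K) := {z | ∃ n : ℕ, n ≠ 0 ∧ n • z.cl = 0}

/-- The torsion of `p`-power order. -/
def Tp (p : ℕ) : Set (Zc W K) := {z | ∃ n : ℕ, p ^ n • z.cl = 0}

/-- Every cycle in `X` is the sum of a cycle in `Y` and a cycle in `E`. -/
def Ad (X Y E : Set (Zc W K)) : Prop := ∀ z ∈ X, ∃ y ∈ Y, ∃ e ∈ E, z.cl = y.cl + e.cl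

/-- The same with a finite subset of `E`. -/
def Fa (X Y E : Set (Zc W K)) : Prop := ∃ E' ⊆ E, E'.Finite ∧ Ad X Y E'

end sets

section cyc

variable {F : Type} [Field F] {N N' k k' : ℕ} {ι ι' : Type} {f : ι → MvPolynomial (Fin N) F}
  {A : GX.Gv F N' k' ι'} (M : GX.Mf f A k) {K : Type} [Field K] [Algebra F K]

/-- The sum of `φ (z)`. -/
noncomputable def Sm (z : Zc (GX.Xf f) K) : (GX.Xf A.a).pt (AlgebraicClosure K) :=
  letI := A.G.grp (AlgebraicClosure K)
  z.cy.sum fun P m => m • M.φ _ P

variable (K) in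
/-- The cycles with sum `0`. -/
def Tz : Set (Zc (GX.Xf f) K) := {z | Sm M z = (A.G.grp (AlgebraicClosure K)).zero}

variable (V : ValuationSubring (AlgebraicClosure K))

open Classical in
/-- The cycles which are zero modulo `I`: for each point `Q` the sum of the coefficients at the points congruent to `Q` modulo `I` is
`0`. -/
def Uz (I : Set (AlgebraicClosure K)) : Set (Zc (GX.Xf f) K) :=
  {z | ∀ Q, ∑ P ∈ z.cy.support.filter fun P => Cg V I P Q, z.cy P = 0}

/-- The cycles which are supported on points with at most `D` conjugates. -/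
def Dg (D : ℕ) : Set (Zc (GX.Xf f) K) :=
  {z | ∀ P ∈ z.cy.support, ∃ s : Finset ((GX.Xf f).pt (AlgebraicClosure K)), s.card ≤ D ∧
    ∀ γ : AlgebraicClosure K ≃ₐ[K] AlgebraicClosure K, (GX.Xf f).act γ P ∈ s}

/-- The cycles which are supported on points with smooth reduction. -/
def Sr (d : ℕ) : Set (Zc (GX.Xf f) K) := {z | ∀ P ∈ z.cy.support, Sms V d P}

/-- The structure of the cycles of degree `0` with sum `0`. -/
def Str (d : ℕ) : Prop :=
  ∃ a₀, a₀ ≠ 0 ∧ ∀ a ∈ Mv V a₀, a ≠ 0 →
    (∀ b ∈ Mv V a, b ≠ 0 → ∀ n : ℕ, n ≠ 0 →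
      Tz M K ∩ Uz V (Mv V a) ⊆ Mu n (Tz M K ∩ Uz V (Mv V b))) ∧
    Ad (Tz M K) (Tz M K ∩ Uz V (Mv V a)) (Tz M K ∩ Tr) ∧
    (∀ D : ℕ, Fa (Tz M K ∩ Dg D) (Tz M K ∩ Uz V (Mv V a)) (Tz M K ∩ Tr)) ∧
    (Gng f V d → ∀ p : ℕ, p.Prime → (p : AlgebraicClosure K) ∈ Mx V →
      Fa (Tz M K ∩ Uz V (Mx V) ∩ Sr V d) (Tz M K ∩ Uz V (Mv V a))
        (Tz M K ∩ Uz V (Mx V) ∩ Tp p))

end cyc

section nf

variable {F : Type} [Field F] [NumberField F] {N N' k k' : ℕ} {ι ι' : Type}
  {f : ι → MvPolynomial (Fin N) F} {A : GX.Gv F N' k' ι'} (M : GX.Mf f A k)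

/-- The ring of integers of the completion `F_v`. -/
noncomputable def Iv (v : HeightOneSpectrum (𝓞 F)) : ValuationSubring (FK F v) :=
  v.adicCompletionIntegers F

/-- `V` is the valuation ring of the algebraic closure of `F_v` above the integers of `F_v`. -/
def Va {v : HeightOneSpectrum (𝓞 F)} (V : ValuationSubring (AlgebraicClosure (FK F v))) : Prop :=
  V.comap (algebraMap (FK F v) _) = Iv v

/-- The odd prime numbers `l` such that the groups of the cycles of degree `0` with sum `0` are `l`-divisible at all finite places. -/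
def Lp : Set ℕ := {l | l.Prime ∧ l ≠ 2 ∧ ∀ v, Tz M (FK F v) ⊆ Mu l (Tz M (FK F v))}

/-- The sums are `0` at all places. -/
def Alx (c : Fam (GX.Xf f)) : Prop :=
  (∀ v, c.f v ∈ Tz M (FK F v)) ∧ ∀ v, c.i v ∈ Tz M (IK F v)

/-- The sums of `z` are, at `P`, those of the image of an element of the completion of `F^1(X)`, at all finite places modulo `m` times the
sums of cycles of degree `0`. -/
def Smx (P : Set ℕ) (z : LHat (FA (GX.Xf f))) : Prop :=
  ∃ x : LHat (BE.Gp (GX.Xf f) F), ∀ m : ℕ+, Sf P m →
    ∃ (c : Zc (GX.Xf f) F) (c' d : Fam (GX.Xf f)), IsBcF c c' ∧ x.Rep m c.cl ∧ z.Rep m d.cl ∧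
      ∀ v, ∃ u : Zc (GX.Xf f) (FK F v), letI := A.G.grp (AlgebraicClosure (FK F v))
        Sm M (c'.f v) = Sm M (d.f v) + (m : ℕ) • Sm M u

end nf

end EY
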